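import Mathlib
import Pool.Agent.Q31.AntMain

/-!
# A configuration of Langton's ant whose recurrent set is a strip

The generalised ant with rule word `w` acts on configurations `(c, p, q)`.  For `w = LR` we give a
configuration for which the set of cells visited infinitely often is the strip `ℤ × {0, 1}`.
-/

namespace Pool.Agent.Results.MP_d11917_an.StripRecurrent

open Q31.Ant (Letter Dir turn)

/-- A configuration of the ant with rule word `w`: a grid of states in `{0, …, |w| - 1}`, the
position of the ant and its direction. -/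
structure Config (w : List Letter) where
  grid : ℤ × ℤ → Fin w.length
  pos : ℤ × ℤ
  dir : Dir

/-- One step of the ant: the direction is turned according to the letter of the state of the
current cell, the ant moves one cell in the new direction, and the state of the cell it leaves is
increased by one modulo the length of `w`. -/
def step {w : List Letter} (C : Config w) : Config w where
  grid := Function.update C.grid C.pos ⟨((C.grid C.pos).val + 1) % w.length,
    Nat.mod_lt _ (lt_of_le_of_lt (Nat.zero_le _) (C.grid C.pos).isLt)⟩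
  pos := C.pos + (turn (w.get (C.grid C.pos)) C.dir).vec
  dir := turn (w.get (C.grid C.pos)) C.dir

/-- The set of cells visited at infinitely many times. -/
def Rec {w : List Letter} (C : Config w) : Set (ℤ × ℤ) :=
  {x | {t : ℕ | (step^[t] C).pos = x}.Infinite}

/-- The state of a boolean cell. -/
def toFin (b : Bool) : Fin [Letter.L, Letter.R].length :=
  if b then ⟨1, by decide⟩ else ⟨0, by decide⟩

/-- The configuration of a boolean state. -/
def toC (s : Q31.Ant.St) : Config [Letter.L, Letter.R] where
  grid := fun q => toFin (s.g q)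
  pos := s.p
  dir := s.d

theorem step_toC (s : Q31.Ant.St) : step (toC s) = toC (Q31.Ant.nxt s) := by
  have hturn : turn ([Letter.L, Letter.R].get (toFin (s.g s.p))) s.d
      = Q31.Ant.turnB (s.g s.p) s.d := by
    cases s.g s.p <;> rfl
  have hnext : ∀ h, (⟨((toFin (s.g s.p)).val + 1) % [Letter.L, Letter.R].length, h⟩ :
      Fin [Letter.L, Letter.R].length) = toFin (!(s.g s.p)) := by
    intro h
    apply Fin.ext
    show ((toFin (s.g s.p)).val + 1) % 2 = (toFin (!(s.g s.p))).val
    clear h
    cases s.g s.p <;> rfl
  unfold step toC Q31.Ant.nxt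
  simp only [hturn, hnext]
  congr 1
  funext q
  by_cases hq : q = s.p
  · subst hq
    simp
  · simp [hq]

theorem iter_toC (k : ℕ) (s : Q31.Ant.St) : step^[k] (toC s) = toC (Q31.Ant.nxt^[k] s) := by
  induction k generalizing s with
  | zero => rfl
  | succ k ih => rw [Function.iterate_succ_apply, Function.iterate_succ_apply, step_toC, ih]

/-- For the rule word `LR` (Langton's ant) there is a configuration whose recurrent set is the
strip of the two rows `0` and `1`; in particular it is neither empty nor the whole plane. -/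
theorem result :
    ∃ (w : List Letter) (C : Config w), w = [Letter.L, Letter.R] ∧ Letter.L ∈ w ∧ Letter.R ∈ w ∧
      Rec C = {x : ℤ × ℤ | x.2 = 0 ∨ x.2 = 1} ∧ Rec C ≠ ∅ ∧ Rec C ≠ Set.univ := by
  have hrec : Rec (toC Q31.Ant.s0) = {x : ℤ × ℤ | x.2 = 0 ∨ x.2 = 1} := by
    ext c
    have h := Q31.Ant.rec_s0 c
    have e : {t : ℕ | (step^[t] (toC Q31.Ant.s0)).pos = c}
        = {t : ℕ | (Q31.Ant.nxt^[t] Q31.Ant.s0).p = c} := by
      ext t
      show (step^[t] (toC Q31.Ant.s0)).pos = c ↔ (Q31.Ant.nxt^[t] Q31.Ant.s0).p = c
      rw [iter_toC]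
      rfl
    show {t : ℕ | (step^[t] (toC Q31.Ant.s0)).pos = c}.Infinite ↔ _
    rw [e]
    exact h
  refine ⟨[Letter.L, Letter.R], toC Q31.Ant.s0, rfl, by simp, by simp, hrec, ?_, ?_⟩
  · rw [hrec]
    intro h
    have : ((0, 0) : ℤ × ℤ) ∈ ({x : ℤ × ℤ | x.2 = 0 ∨ x.2 = 1} : Set (ℤ × ℤ)) := Or.inl rfl
    rw [h] at this
    exact this
  · rw [hrec]
    intro h
    have : ((0, 2) : ℤ × ℤ) ∈ ({x : ℤ × ℤ | x.2 = 0 ∨ x.2 = 1} : Set (ℤ × ℤ)) := by
      rw [h]; exact Set.mem_univ _
    rcases this with h' | h'
    · exact absurd h' (by norm_num)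
    · exact absurd h' (by norm_num)

end Pool.Agent.Results.MP_d11917_an.StripRecurrent
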